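import Pool.Agent.Q138.QHyp

/-!
# Denominators in a ratio of two basic hypergeometric series

`Q138.QHyp.R = ℤ[a, b, c, q]`, `Q138.QHyp.K` is its field of fractions `ℚ(a, b, c, q)`,
`Q138.QHyp.phi x y w` is the formal power series `₂φ₁(x, y; w; q, z)` in `z` over `K`.
-/

namespace Pool.Agent.Results.MP_2e34cc_co.DenominatorBound

open Q138.QHyp

/-- the coefficients `γ_n` of `₂φ₁(aq, bq; cq; q, z) / ₂φ₁(a, b; c; q, z)` -/
noncomputable def gamma (n : ℕ) : K :=
  PowerSeries.coeff n (phi (a * q) (b * q) (c * q) * (phi a b c)⁻¹)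

/-- The answer to Q1 is positive. -/
theorem result : ∀ n : ℕ, ∃ P : R,
    gamma n / (1 - c) =
      algebraMap R K P / ∏ k ∈ Finset.range (n + 1), (1 - c * q ^ k) ^ ((n + 1) / (k + 1)) := by
  intro n
  obtain ⟨P, hP⟩ := main1 n
  refine ⟨P, ?_⟩
  rw [eq_div_iff, ← hP, mul_comm]
  · rfl
  · rw [Finset.prod_ne_zero_iff]
    intro k _
    exact pow_ne_zero _ (alg_pr_ne k)

end Pool.Agent.Results.MP_2e34cc_co.DenominatorBound
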